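import Pool.Agent.Y160.SH.Stmts

/-!
# The norm of the Kummer generator is an `ℓ`-th power
-/

set_option autoImplicit false
set_option linter.all false

open Polynomial IsDedekindDomain
open scoped Classical

namespace Pool.Agent.Y474.SH

open Pool.Agent.TH115.GD (incl rs ak Sep Comp CompInf IsTower rs_mul)
open Pool.Agent.Y160.SQ

section norm

variable {K N Ω : Type} [Field K] [Field N] [Field Ω] [Algebra K N]
  [Algebra N Ω] [Algebra K Ω] [IsScalarTower K N Ω] [IsGalois K Ω]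

theorem hom_ext {E : Type} [Field E] [Algebra K E] {θ : N}
    (htop : IntermediateField.adjoin K {θ} = ⊤) {φ ψ : N →ₐ[K] E} (h : φ θ = ψ θ) : φ = ψ := by
  refine AlgHom.ext fun y => ?_
  have hy : y ∈ (⊤ : IntermediateField K N) := trivial
  rw [← htop] at hy
  refine IntermediateField.adjoin_induction K (p := fun y _ => φ y = ψ y) ?_ ?_ ?_ ?_ ?_ hy
  · intro y hy
    rw [Set.mem_singleton_iff] at hy
    subst hy
    exact h
  · intro y
    rw [φ.commutes, ψ.commutes]
  · intro x y _ _ hx hy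
    rw [map_add, map_add, hx, hy]
  · intro x _ hx
    rw [map_inv₀, map_inv₀, hx]
  · intro x y _ _ hx hy
    rw [map_mul, map_mul, hx, hy]

/-- The norm as a product over the roots. -/
theorem norm_prod {f : K[X]} (hsp : (f.map (algebraMap K Ω)).Splits)
    (hsep : f.Separable) {a : Ω} {θ : N} (ha : Rt f a)
    (hθ : algebraMap N Ω θ = a) (htop : IntermediateField.adjoin K {θ} = ⊤)
    (ρ : Ω → (Ω ≃ₐ[K] Ω)) (hρ : ∀ β, Rt f β → ρ β a = β) (z : N) :
    algebraMap K Ω (Algebra.norm K z) =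
      ∏ β ∈ (f.map (algebraMap K Ω)).roots.toFinset, ρ β (algebraMap N Ω z) := by
  have hf0 : f ≠ 0 := hsep.ne_zero
  have hf0' : f.map (algebraMap K Ω) ≠ 0 := (Polynomial.map_ne_zero_iff (algebraMap K Ω).injective).2 hf0
  have hθint : IsIntegral K θ := by
    have h1 : IsIntegral K (algebraMap N Ω θ) := Algebra.IsIntegral.isIntegral _
    exact (isIntegral_algebraMap_iff (algebraMap N Ω).injective).1 h1
  haveI : FiniteDimensional K N := by
    have h1 : FiniteDimensional K (IntermediateField.adjoin K {θ}) :=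
      IntermediateField.adjoin.finiteDimensional hθint
    rw [htop] at h1
    exact LinearEquiv.finiteDimensional (IntermediateField.topEquiv (F := K) (E := N)).toLinearEquiv
  haveI : Algebra.IsSeparable K N := Algebra.isSeparable_tower_bot_of_isSeparable K N Ω
  have hrt : ∀ β ∈ (f.map (algebraMap K Ω)).roots.toFinset, Rt f β := by
    intro β hβ
    rw [Multiset.mem_toFinset, mem_roots hf0'] at hβ
    exact rt_of hβ
  let E := AlgebraicClosure Ω
  apply (algebraMap Ω E).injective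
  rw [← IsScalarTower.algebraMap_apply K Ω E, Algebra.norm_eq_prod_embeddings K E z, map_prod]
  let e : Ω → (N →ₐ[K] E) := fun β => (IsScalarTower.toAlgHom K Ω E).comp
    (((ρ β : Ω ≃ₐ[K] Ω) : Ω →ₐ[K] Ω).comp (IsScalarTower.toAlgHom K N Ω))
  have he : ∀ β (x : N), e β x = algebraMap Ω E (ρ β (algebraMap N Ω x)) := fun β x => rfl
  symm
  refine Finset.prod_bij (fun β _ => e β) (fun β _ => Finset.mem_univ _) ?_ ?_ ?_
  · intro β hβ β' hβ' h
    have h1 := DFunLike.congr_fun h θ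
    rw [he, he, hθ, hρ _ (hrt _ hβ), hρ _ (hrt _ hβ')] at h1
    exact (algebraMap Ω E).injective h1
  · intro σ _
    have h1 : (f.map (algebraMap K E)).eval (σ θ) = 0 := by
      rw [eval_map_algebraMap, aeval_algHom_apply]
      have h3 : aeval θ f = 0 := by
        apply (algebraMap N Ω).injective
        rw [← aeval_algebraMap_apply, hθ, map_zero]
        exact ha
      rw [h3, map_zero]
    have h3 : f.map (algebraMap K E) = (f.map (algebraMap K Ω)).map (algebraMap Ω E) := by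
      rw [Polynomial.map_map, ← IsScalarTower.algebraMap_eq]
    have h4 : σ θ ∈ ((f.map (algebraMap K Ω)).map (algebraMap Ω E)).roots := by
      rw [← h3, mem_roots]
      · exact h1
      · rw [h3]
        exact (Polynomial.map_ne_zero_iff (algebraMap Ω E).injective).2 hf0'
    rw [hsp.roots_map, Multiset.mem_map] at h4
    obtain ⟨β, hβ, h5⟩ := h4
    have h6 : β ∈ (f.map (algebraMap K Ω)).roots.toFinset := Multiset.mem_toFinset.2 hβ
    refine ⟨β, h6, ?_⟩
    refine hom_ext htop ?_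
    rw [he, hθ, hρ _ (hrt _ h6), h5]
  · intro β _
    rfl

end norm

theorem stShaN : Pool.Agent.Y160.SH.StShaN := by
  intro ℓ K N Ω _ _ _ _ _ _ _ _ _ f ζ hg H hirr a θ ha hθ htop g hmul hg2 t z ht hz hk
  have hsp : (f.map (algebraMap K Ω)).Splits := splits_up hg
  have hirr' : Irreducible (f.map (algebraMap K K)) := by
    rw [Algebra.algebraMap_self, Polynomial.map_id]
    exact hirr
  have htr : ∀ β : Ω, ∃ ρ : Ω ≃ₐ[K] Ω, Rt f β → ρ a = β := by
    intro β
    by_cases hβ : Rt f β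
    · obtain ⟨ρ, hρ⟩ := trans_rt hg hirr' ha hβ
      exact ⟨ρ, fun _ => hρ⟩
    · exact ⟨1, fun h => absurd h hβ⟩
  choose ρ hρ using htr
  set R := (f.map (algebraMap K Ω)).roots.toFinset with hR
  have hrt : ∀ β, β ∈ R ↔ Rt f β := by
    intro β
    rw [hR, Multiset.mem_toFinset, mem_roots (hg.up Ω).monic.ne_zero]
    exact ⟨fun h => rt_of h, fun h => h.ev⟩
  have hnd : (f.map (algebraMap K Ω)).roots.Nodup := nodup_roots (hg.up Ω).sep
  -- the elements `t_β`
  let T : Ω → Ω := fun β => (chi hg β (g (ρ β)))⁻¹ * ρ β t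
  have hT : ∀ τ : Ω ≃ₐ[K] Ω, T (τ a) = (chi hg (τ a) (g τ))⁻¹ * τ t := by
    intro τ
    have hτa : Rt f (τ a) := ha.map (ak τ)
    set s := (ρ (τ a))⁻¹ * τ with hs
    have h3 : s a = a := by
      apply (ρ (τ a)).injective
      rw [hs, AlgEquiv.mul_apply, ← AlgEquiv.mul_apply, mul_inv_cancel, hρ _ hτa]
      rfl
    have h4 : τ = ρ (τ a) * s := by rw [hs]; group
    have h5 : g τ = g (ρ (τ a)) + jm ℓ f (ak (ρ (τ a))) (g s) := by
      conv_lhs => rw [h4]
      exact hmul _ _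
    have h6 := chi_map H hg (hg2 s) ha (ak (ρ (τ a)))
    have h7 : (ak (ρ (τ a))) a = τ a := hρ _ hτa
    rw [h7, chi_fix' H hg (hg2 s) ha] at h6
    have h8 : τ t = chi hg a (g s) * ρ (τ a) t := by
      conv_lhs => rw [h4]
      rw [AlgEquiv.mul_apply, hk s h3, map_mul]
      congr 1
      exact chi_fix' H hg (hg2 s) ha (ak (ρ (τ a)))
    have h9 := chi_ne H hg (hg2 s) ha
    have h10 := chi_ne H hg (hg2 (ρ (τ a))) hτa
    show (chi hg (τ a) (g (ρ (τ a))))⁻¹ * ρ (τ a) t = _
    rw [h5, chi_add H hg (hg2 _) ((hg2 _).map _) hτa, h6, h8]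
    field_simp
  have hσT : ∀ (σ : Ω ≃ₐ[K] Ω) (β : Ω), Rt f β → σ (T β) = chi hg (σ β) (g σ) * T (σ β) := by
    intro σ β hβ
    have hσβ : Rt f (σ β) := hβ.map (ak σ)
    have e : σ β = (σ * ρ β) a := by rw [AlgEquiv.mul_apply, hρ β hβ]
    have h1 := hT (σ * ρ β)
    rw [← e, hmul, chi_add H hg (hg2 _) ((hg2 _).map _) hσβ, AlgEquiv.mul_apply] at h1
    have h3 := chi_map H hg (hg2 (ρ β)) hβ (ak σ)
    rw [chi_fix' H hg (hg2 _) hβ] at h3
    have h4 : (ak σ) β = σ β := rfl
    rw [h4] at h3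
    rw [h3] at h1
    have h5 : σ (T β) = (chi hg β (g (ρ β)))⁻¹ * σ (ρ β t) := by
      show σ ((chi hg β (g (ρ β)))⁻¹ * ρ β t) = _
      rw [map_mul, map_inv₀]
      congr 2
      exact chi_fix' H hg (hg2 _) hβ (ak σ)
    rw [h5, h1]
    have h6 := chi_ne H hg (hg2 (ρ β)) hβ
    have h7 := chi_ne H hg (hg2 σ) hσβ
    field_simp
  -- the product
  have hy : ∏ β ∈ R, T β ∈ Set.range (algebraMap K Ω) := by
    rw [InfiniteGalois.mem_range_algebraMap_iff_fixed]
    intro σ
    rw [map_prod]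
    have h1 : ∏ β ∈ R, σ (T β) = ∏ β ∈ R, (chi hg (σ β) (g σ) * T (σ β)) :=
      Finset.prod_congr rfl fun β hβ => hσT σ β ((hrt β).1 hβ)
    have h3 : ∏ β ∈ R, (chi hg (σ β) (g σ) * T (σ β)) = ∏ β ∈ R, (chi hg β (g σ) * T β) := by
      refine Finset.prod_bij (fun β _ => σ β) ?_ ?_ ?_ ?_
      · intro β hβ
        exact (hrt _).2 (((hrt _).1 hβ).map (ak σ))
      · intro β _ β' _ h
        exact σ.injective h
      · intro β hβ
        refine ⟨σ.symm β, (hrt _).2 (((hrt _).1 hβ).map (ak σ.symm)), ?_⟩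
        exact σ.apply_symm_apply β
      · intro β _
        rfl
    have h4 : ∏ β ∈ R, chi hg β (g σ) = 1 := by
      have h5 := chi_prod H hg (hg2 σ)
      rw [hR, Finset.prod, Multiset.toFinset_val, Multiset.dedup_eq_self.2 hnd]
      exact h5
    rw [h1, h3, Finset.prod_mul_distrib, h4, one_mul]
  obtain ⟨y, hy⟩ := hy
  refine ⟨y, ?_⟩
  apply (algebraMap K Ω).injective
  rw [norm_prod hsp hg.sep ha hθ htop ρ hρ z, map_pow, hy, ← Finset.prod_pow]
  refine Finset.prod_congr rfl fun β hβ => ?_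
  have hβ' := (hrt β).1 hβ
  show _ = ((chi hg β (g (ρ β)))⁻¹ * ρ β t) ^ ℓ
  rw [mul_pow, inv_pow, chi_pow H hg (hg2 _) hβ', inv_one, one_mul, ← hz, map_pow]

end Pool.Agent.Y474.SH
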